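import Mathlib
import Pool.Agent.H912.PF.Density

/-!
# MP_b4205f_al: for each numerator `a` almost all denominators give a non-free group
-/

set_option autoImplicit false

namespace Pool.Agent.Results.MP_b4205f_al.AlmostAllDenominators

open Filter Topology Matrix

/-- the homomorphism from the free group of rank two which sends the generators to
`[[1, q], [0, 1]]` and `[[1, 0], [q, 1]]` is not injective -/
def NonFree (q : ℚ) : Prop :=
  ∀ g h : Matrix.GeneralLinearGroup (Fin 2) ℂ,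
    (g : Matrix (Fin 2) (Fin 2) ℂ) = !![1, (q : ℂ); 0, 1] →
    (h : Matrix (Fin 2) (Fin 2) ℂ) = !![1, 0; (q : ℂ), 1] →
    ¬ Function.Injective (FreeGroup.lift ![g, h])

/-- upper unipotent matrices over `ℂ` -/
noncomputable def up (x : ℂ) : Matrix.GeneralLinearGroup (Fin 2) ℂ :=
  Matrix.GeneralLinearGroup.mkOfDetNeZero !![1, x; 0, 1] (by simp [Matrix.det_fin_two_of])

/-- lower unipotent matrices over `ℂ` -/
noncomputable def lo (y : ℂ) : Matrix.GeneralLinearGroup (Fin 2) ℂ :=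
  Matrix.GeneralLinearGroup.mkOfDetNeZero !![1, 0; y, 1] (by simp [Matrix.det_fin_two_of])

theorem coe_up (x : ℂ) : (up x : Matrix (Fin 2) (Fin 2) ℂ) = !![1, x; 0, 1] := rfl

theorem coe_lo (y : ℂ) : (lo y : Matrix (Fin 2) (Fin 2) ℂ) = !![1, 0; y, 1] := rfl

/-- `up` as a homomorphism -/
noncomputable def upHom : Multiplicative ℂ →* Matrix.GeneralLinearGroup (Fin 2) ℂ where
  toFun x := up (Multiplicative.toAdd x)
  map_one' := by
    apply Units.ext
    rw [coe_up]
    ext i j
    fin_cases i <;> fin_cases j <;> simp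
  map_mul' x y := by
    apply Units.ext
    rw [Units.val_mul, coe_up, coe_up, coe_up]
    ext i j
    fin_cases i <;> fin_cases j <;> simp [Matrix.mul_apply, Fin.sum_univ_two, add_comm]

/-- `lo` as a homomorphism -/
noncomputable def loHom : Multiplicative ℂ →* Matrix.GeneralLinearGroup (Fin 2) ℂ where
  toFun x := lo (Multiplicative.toAdd x)
  map_one' := by
    apply Units.ext
    rw [coe_lo]
    ext i j
    fin_cases i <;> fin_cases j <;> simp
  map_mul' x y := by
    apply Units.ext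
    rw [Units.val_mul, coe_lo, coe_lo, coe_lo]
    ext i j
    fin_cases i <;> fin_cases j <;> simp [Matrix.mul_apply, Fin.sum_univ_two]

theorem up_zpow (x : ℂ) (n : ℤ) : up x ^ n = up (n * x) := by
  have h := map_zpow upHom (Multiplicative.ofAdd x) n
  have h1 : (Multiplicative.ofAdd x) ^ n = Multiplicative.ofAdd ((n : ℂ) * x) := by
    rw [← ofAdd_zsmul, zsmul_eq_mul]
  rw [h1] at h
  exact h.symm

theorem lo_zpow (x : ℂ) (n : ℤ) : lo x ^ n = lo (n * x) := by
  have h := map_zpow loHom (Multiplicative.ofAdd x) n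
  have h1 : (Multiplicative.ofAdd x) ^ n = Multiplicative.ofAdd ((n : ℂ) * x) := by
    rw [← ofAdd_zsmul, zsmul_eq_mul]
  rw [h1] at h
  exact h.symm

/-- if `p = 1 + s ^ 2 k ≥ 2` divides `r = p m ≠ 0` then the two matrices at `s / r` satisfy a
nontrivial relation -/
theorem nonFree_of_dvd (s p k m : ℤ) (hp : p = 1 + s ^ 2 * k) (hp2 : 2 ≤ p) (hm : m ≠ 0) :
    NonFree ((s : ℚ) / ((p * m : ℤ) : ℚ)) := by
  intro g h hg hh hinj
  have hg' : g = up (((s : ℚ) / ((p * m : ℤ) : ℚ) : ℚ) : ℂ) := Units.ext (by rw [hg, coe_up])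
  have hh' : h = lo (((s : ℚ) / ((p * m : ℤ) : ℚ) : ℚ) : ℂ) := Units.ext (by rw [hh, coe_lo])
  set a : FreeGroup (Fin 2) := FreeGroup.of 0 with ha
  set b : FreeGroup (Fin 2) := FreeGroup.of 1 with hb
  set w : FreeGroup (Fin 2) := a ^ (p * m ^ 2) * b ^ (-k) * a ^ (-(p ^ 2 * m ^ 2)) with hw
  have hpC : (p : ℂ) ≠ 0 := by
    have : p ≠ 0 := by omega
    exact_mod_cast this
  have hmC : (m : ℂ) ≠ 0 := by exact_mod_cast hm
  have hkey : FreeGroup.lift ![g, h] (w * b) = FreeGroup.lift ![g, h] (b ^ (p ^ 2) * w) := by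
    have e1 : FreeGroup.lift ![g, h] a = g := by rw [ha, FreeGroup.lift_apply_of]; rfl
    have e2 : FreeGroup.lift ![g, h] b = h := by rw [hb, FreeGroup.lift_apply_of]; rfl
    rw [hw]
    simp only [map_mul, map_zpow, e1, e2]
    rw [hg', hh', up_zpow, up_zpow, lo_zpow, lo_zpow]
    apply Units.ext
    simp only [Units.val_mul, coe_up, coe_lo]
    have hsk : (s : ℂ) ^ 2 * k = p - 1 := by
      have : (p : ℂ) = 1 + s ^ 2 * k := by exact_mod_cast hp
      rw [this]; ring
    have f1 : ((p * m ^ 2 : ℤ) : ℂ) * (((s : ℚ) / ((p * m : ℤ) : ℚ) : ℚ) : ℂ) = m * s := by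
      push_cast; field_simp
    have f2 : ((-(p ^ 2 * m ^ 2) : ℤ) : ℂ) * (((s : ℚ) / ((p * m : ℤ) : ℚ) : ℚ) : ℂ)
        = -(p * m * s) := by
      push_cast; field_simp
    have f3 : (((s : ℚ) / ((p * m : ℤ) : ℚ) : ℚ) : ℂ) = s / (p * m) := by
      push_cast; rfl
    rw [f1, f2, f3]
    push_cast
    have hL : !![1, (m : ℂ) * s; 0, 1] * !![1, 0; -(k : ℂ) * (s / (p * m)), 1] *
        !![1, -((p : ℂ) * m * s); 0, 1] = !![1 / (p : ℂ), 0; -(k : ℂ) * (s / (p * m)), p] := by
      ext i j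
      fin_cases i <;> fin_cases j <;> simp [Matrix.mul_apply, Fin.sum_univ_two] <;> field_simp
      · linear_combination (-1 : ℂ) * hsk
      · linear_combination ((m : ℂ) * s) * hsk
      · linear_combination hsk
    rw [hL]
    ext i j
    fin_cases i <;> fin_cases j <;> simp [Matrix.mul_apply, Fin.sum_univ_two] <;> field_simp
    ring
  have hfree := hinj hkey
  -- pass to the exponent sum of `b`
  have hψ := congrArg (FreeGroup.lift ![(1 : Multiplicative ℤ), Multiplicative.ofAdd 1]) hfree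
  have e3 : FreeGroup.lift ![(1 : Multiplicative ℤ), Multiplicative.ofAdd 1] b
      = Multiplicative.ofAdd 1 := by rw [hb, FreeGroup.lift_apply_of]; rfl
  clear_value w
  rw [map_mul, map_mul, map_zpow, e3, mul_comm] at hψ
  have h7 := mul_right_cancel hψ
  have h8 : (1 : ℤ) = p ^ 2 := by
    have := congrArg Multiplicative.toAdd h7
    simpa using this
  nlinarith

/-- for every nonzero integer `s`, the number of denominators `r ≤ N` for which the two matrices
at `s / r` generate a free group freely is `o(N)` -/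
theorem result (s : ℤ) (hs : s ≠ 0) :
    Tendsto (fun N : ℕ =>
      (Nat.card {r : ℕ // 1 ≤ r ∧ r ≤ N ∧ ¬ NonFree ((s : ℚ) / (r : ℚ))} : ℝ) / N)
      atTop (𝓝 0) := by
  have hQ : NeZero (s ^ 2).natAbs := ⟨Int.natAbs_ne_zero.2 (pow_ne_zero 2 hs)⟩
  refine Pool.Agent.H912.PF.density_zero (s ^ 2).natAbs {r : ℕ | ¬ NonFree ((s : ℚ) / (r : ℚ))} ?_
  intro r hr hr1 p hp hp1 hdvd
  apply hr
  obtain ⟨m, rfl⟩ := hdvd
  have h1 : s ^ 2 ∣ (p : ℤ) - 1 := by
    rw [← Int.natAbs_dvd, ← ZMod.intCast_zmod_eq_zero_iff_dvd]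
    push_cast
    rw [hp1, sub_self]
  obtain ⟨k, hk⟩ := h1
  have h2 := nonFree_of_dvd s p k m (by linarith) (by exact_mod_cast hp.two_le) (by
    rintro h0
    have : m = 0 := by exact_mod_cast h0
    rw [this] at hr1
    simp at hr1)
  have h3 : (((p : ℤ) * (m : ℤ) : ℤ) : ℚ) = ((p * m : ℕ) : ℚ) := by push_cast; ring
  rw [h3] at h2
  exact h2

end Pool.Agent.Results.MP_b4205f_al.AlmostAllDenominators
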